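import Mathlib

/-! Project ABG (helper88): the polarised Cayley-Hamilton identity for traceless 3 by 3 matrices. -/

namespace Pool.Agent.J4H42.ABG

theorem CH_aux {R : Type*} [CommRing R] (a b c d e f g h a' b' c' d' e' f' g' h'
    a'' b'' c'' d'' e'' f'' g'' h'' : R) (X Y Z : Matrix (Fin 3) (Fin 3) R)
    (hX : X = !![a, b, c; d, e, f; g, h, -a - e]) (hY : Y = !![a', b', c'; d', e', f'; g', h', -a' - e'])
    (hZ : Z = !![a'', b'', c''; d'', e'', f''; g'', h'', -a'' - e'']) :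
    X * Y * Z + Y * Z * X + Z * X * Y + (Y * X * Z + Z * Y * X + X * Z * Y) =
    (X * Y).trace • Z + (Y * Z).trace • X + (Z * X).trace • Y +
      ((X * Y * Z).trace + (Y * X * Z).trace) • (1 : Matrix (Fin 3) (Fin 3) R) := by
  have h1 : (1 : Matrix (Fin 3) (Fin 3) R) = !![1, 0, 0; 0, 1, 0; 0, 0, 1] := by
    ext i j; fin_cases i <;> fin_cases j <;> rfl
  rw [hX, hY, hZ, h1]
  simp only [Matrix.mul_fin_three, Matrix.trace_fin_three]
  ext i j
  fin_cases i <;> fin_cases j <;> simp <;> ring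

theorem eta_traceless {R : Type*} [CommRing R] (X : Matrix (Fin 3) (Fin 3) R) (h : X.trace = 0) :
    X = !![X 0 0, X 0 1, X 0 2; X 1 0, X 1 1, X 1 2; X 2 0, X 2 1, -X 0 0 - X 1 1] := by
  have h22 : X 2 2 = -X 0 0 - X 1 1 := by
    rw [Matrix.trace_fin_three] at h
    linear_combination h
  rw [← h22]
  exact Matrix.eta_fin_three X

/-- the polarised Cayley-Hamilton identity for traceless matrices -/
theorem CH {R : Type*} [CommRing R] (X Y Z : Matrix (Fin 3) (Fin 3) R) (hX : X.trace = 0)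
    (hY : Y.trace = 0) (hZ : Z.trace = 0) :
    X * Y * Z + Y * Z * X + Z * X * Y + (Y * X * Z + Z * Y * X + X * Z * Y) =
    (X * Y).trace • Z + (Y * Z).trace • X + (Z * X).trace • Y +
      ((X * Y * Z).trace + (Y * X * Z).trace) • (1 : Matrix (Fin 3) (Fin 3) R) :=
  CH_aux _ _ _ _ _ _ _ _ _ _ _ _ _ _ _ _ _ _ _ _ _ _ _ _ X Y Z (eta_traceless X hX)
    (eta_traceless Y hY) (eta_traceless Z hZ)

end Pool.Agent.J4H42.ABG
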