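import Pool.Agent.J4H88.ABG.Lie

/-! Project ABG (helper88), jobs LIE 1, 2, 4, 5, 6. -/

open scoped TensorProduct

namespace Pool.Agent.J4H42.ABG

attribute [local instance 100] LieRing.ofAssociativeRing

open Pool.Agent.J4H88.ABG

universe u v

section

variable (𝕜 : Type u) [Field 𝕜] (A : Type v) [NonUnitalNonAssocRing A] [Module 𝕜 A]
  [IsScalarTower 𝕜 A A] [SMulCommClass 𝕜 A A] [IsAlt A]

theorem wedge_skew {A : Type v} [NonUnitalNonAssocRing A] [Module 𝕜 A]
    [IsScalarTower 𝕜 A A] [SMulCommClass 𝕜 A A] (p q : A) :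
    wedge 𝕜 p q = - wedge 𝕜 q p := by
  have h := wedge_self 𝕜 (p + q)
  simp only [map_add, LinearMap.add_apply, wedge_self, zero_add, add_zero] at h
  exact eq_neg_of_add_eq_zero_right h

theorem jor_apply {A : Type v} [NonUnitalNonAssocRing A] [Module 𝕜 A]
    [IsScalarTower 𝕜 A A] [SMulCommClass 𝕜 A A] (p q : A) :
    jor 𝕜 p q = (2⁻¹ : 𝕜) • (p * q + q * p) := rfl

theorem comm_apply {A : Type v} [NonUnitalNonAssocRing A] [Module 𝕜 A]
    [IsScalarTower 𝕜 A A] [SMulCommClass 𝕜 A A] (p q : A) :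
    comm 𝕜 p q = p * q - q * p := rfl

variable [CharZero 𝕜]

theorem two_self {M : Type*} [AddCommGroup M] [Module 𝕜 M] {x : M} (h : x = -x) : x = 0 := by
  have h1 : (2 : 𝕜) • x = 0 := by
    rw [two_smul]
    nth_rewrite 2 [h]
    exact add_neg_cancel x
  exact (smul_eq_zero.1 h1).resolve_left two_ne_zero

theorem slAnti_comm (X Y : sl3 𝕜) : slAnti 𝕜 X Y = slAnti 𝕜 Y X := by
  apply Subtype.ext
  rw [slAnti_coe, slAnti_coe, add_comm (X.1 * Y.1), Matrix.trace_mul_comm X.1 Y.1]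

/-- JOB LIE 1 -/
theorem t_brSS_self (u : sl3 𝕜 ⊗[𝕜] A) : brSS 𝕜 A u u = 0 := by
  have hsk : ∀ u v : sl3 𝕜 ⊗[𝕜] A, brSS 𝕜 A u v = - brSS 𝕜 A v u := by
    intro u v
    induction u using TensorProduct.induction_on with
    | zero => simp
    | tmul X p =>
      induction v using TensorProduct.induction_on with
      | zero => simp
      | tmul Y q =>
        rw [brSS_tmul, brSS_tmul, slAnti_comm 𝕜 X Y, ← lie_skew X Y, jor_apply, jor_apply,
          comm_apply, comm_apply, add_comm (q * p), TensorProduct.neg_tmul, neg_add,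
          ← TensorProduct.tmul_neg _ (q * p - p * q), neg_sub]
      | add x y hx hy =>
        simp only [map_add, LinearMap.add_apply, hx, hy, neg_add]
    | add x y hx hy =>
      simp only [map_add, LinearMap.add_apply, hx, hy, neg_add]
  exact two_self 𝕜 (hsk u u)

/-- JOB LIE 2 -/
theorem t_brSB_self (u : sl3 𝕜 ⊗[𝕜] A) : brSB 𝕜 A u u = 0 := by
  have hsk : ∀ u v : sl3 𝕜 ⊗[𝕜] A, brSB 𝕜 A u v = - brSB 𝕜 A v u := by
    intro u v
    induction u using TensorProduct.induction_on with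
    | zero => simp
    | tmul X p =>
      induction v using TensorProduct.induction_on with
      | zero => simp
      | tmul Y q =>
        rw [brSB_tmul, brSB_tmul, Matrix.trace_mul_comm X.1 Y.1, wedge_skew 𝕜 p q, smul_neg]
      | add x y hx hy =>
        simp only [map_add, LinearMap.add_apply, hx, hy, neg_add]
    | add x y hx hy =>
      simp only [map_add, LinearMap.add_apply, hx, hy, neg_add]
  exact two_self 𝕜 (hsk u u)

/-- JOB LIE 6 -/
theorem t_actS_brSS (b : BB 𝕜 A) (u v : sl3 𝕜 ⊗[𝕜] A) :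
    actS 𝕜 A b (brSS 𝕜 A u v) = brSS 𝕜 A (actS 𝕜 A b u) v + brSS 𝕜 A u (actS 𝕜 A b v) := by
  induction u using TensorProduct.induction_on with
  | zero => simp
  | tmul X p =>
    induction v using TensorProduct.induction_on with
    | zero => simp
    | tmul Y q =>
      simp only [brSS_tmul, actS_tmul, map_add, jor_apply, comm_apply, map_smul, map_sub, DB_mul]
      have e1 : (2⁻¹ : 𝕜) • (DB 𝕜 A b p * q + p * DB 𝕜 A b q + (DB 𝕜 A b q * p + q * DB 𝕜 A b p)) =
          (2⁻¹ : 𝕜) • (DB 𝕜 A b p * q + q * DB 𝕜 A b p) +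
            (2⁻¹ : 𝕜) • (p * DB 𝕜 A b q + DB 𝕜 A b q * p) := by
        rw [← smul_add]
        congr 1
        abel
      have e2 : DB 𝕜 A b p * q + p * DB 𝕜 A b q - (DB 𝕜 A b q * p + q * DB 𝕜 A b p) =
          (DB 𝕜 A b p * q - q * DB 𝕜 A b p) + (p * DB 𝕜 A b q - DB 𝕜 A b q * p) := by
        abel
      rw [e1, e2, TensorProduct.tmul_add, TensorProduct.tmul_add]
      abel
    | add x y hx hy =>
      simp only [map_add, hx, hy]
      abel
  | add x y hx hy =>
    simp only [map_add, LinearMap.add_apply, hx, hy]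
    abel

theorem tr_anti (X Y Z : sl3 𝕜) : ((slAnti 𝕜 X Y).1 * Z.1).trace =
    (2⁻¹ : 𝕜) * ((X.1 * Y.1 * Z.1).trace + (Y.1 * X.1 * Z.1).trace) := by
  have hZ : Z.1.trace = 0 := Z.2
  rw [slAnti_coe, sub_mul, smul_mul_assoc, add_mul, smul_mul_assoc, one_mul, Matrix.trace_sub,
    Matrix.trace_smul, Matrix.trace_smul, Matrix.trace_add, hZ, smul_zero, sub_zero, smul_eq_mul]

theorem tr_br (X Y Z : sl3 𝕜) : ((⁅X, Y⁆ : sl3 𝕜).1 * Z.1).trace =
    (X.1 * Y.1 * Z.1).trace - (Y.1 * X.1 * Z.1).trace := by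
  have h : (⁅X, Y⁆ : sl3 𝕜).1 = X.1 * Y.1 - Y.1 * X.1 := rfl
  rw [h, sub_mul, Matrix.trace_sub]

/-- the pure case of LIE 5 -/
theorem brSB_brSS (X Y Z : sl3 𝕜) (p q r : A) :
    brSB 𝕜 A (brSS 𝕜 A (X ⊗ₜ p) (Y ⊗ₜ q)) (Z ⊗ₜ r) =
      ((3⁻¹ : 𝕜) * (X.1 * Y.1 * Z.1).trace) • wedge 𝕜 (p * q) r -
        ((3⁻¹ : 𝕜) * (Y.1 * X.1 * Z.1).trace) • wedge 𝕜 (q * p) r := by
  rw [brSS_tmul, map_add, LinearMap.add_apply, brSB_tmul, brSB_tmul, tr_anti, tr_br, jor_apply,
    comm_apply]
  simp only [map_smul, map_add, map_sub, LinearMap.smul_apply, LinearMap.add_apply,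
    LinearMap.sub_apply]
  have h2 : (2 : 𝕜) ≠ 0 := two_ne_zero
  module

/-- JOB LIE 5 -/
theorem t_jac_SSS_B (u v w : sl3 𝕜 ⊗[𝕜] A) :
    brSB 𝕜 A (brSS 𝕜 A u v) w + brSB 𝕜 A (brSS 𝕜 A v w) u + brSB 𝕜 A (brSS 𝕜 A w u) v = 0 := by
  induction u using TensorProduct.induction_on with
  | zero => simp
  | tmul X p =>
    induction v using TensorProduct.induction_on with
    | zero => simp
    | tmul Y q =>
      induction w using TensorProduct.induction_on with
      | zero => simp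
      | tmul Z r =>
        rw [brSB_brSS, brSB_brSS, brSB_brSS]
        have t1 : (Y.1 * Z.1 * X.1).trace = (X.1 * Y.1 * Z.1).trace := by
          rw [Matrix.trace_mul_cycle]
        have t2 : (Z.1 * X.1 * Y.1).trace = (X.1 * Y.1 * Z.1).trace := by
          rw [Matrix.trace_mul_cycle, Matrix.trace_mul_cycle]
        have t3 : (Z.1 * Y.1 * X.1).trace = (Y.1 * X.1 * Z.1).trace := by
          rw [Matrix.trace_mul_cycle, Matrix.trace_mul_cycle]
        have t4 : (X.1 * Z.1 * Y.1).trace = (Y.1 * X.1 * Z.1).trace := by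
          rw [Matrix.trace_mul_cycle]
        rw [t1, t2, t3, t4]
        have w1 := wedge_cyc 𝕜 p q r
        have w2 := wedge_cyc 𝕜 q p r
        linear_combination (norm := module)
          ((3⁻¹ : 𝕜) * (X.1 * Y.1 * Z.1).trace) • w1 - ((3⁻¹ : 𝕜) * (Y.1 * X.1 * Z.1).trace) • w2
      | add x y hx hy =>
        simp only [map_add, LinearMap.add_apply]
        linear_combination (norm := abel) hx + hy
    | add x y hx hy =>
      simp only [map_add, LinearMap.add_apply]
      linear_combination (norm := abel) hx + hy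
  | add x y hx hy =>
    simp only [map_add, LinearMap.add_apply]
    linear_combination (norm := abel) hx + hy

end

end Pool.Agent.J4H42.ABG
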