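import Pool.Agent.J4H88.ABG.Lie
import Pool.Agent.J4H42.ABG.CH

/-! Project ABG (helper88), job LIE 4. -/

open scoped TensorProduct

namespace Pool.Agent.J4H42.ABG

attribute [local instance 100] LieRing.ofAssociativeRing

open Pool.Agent.J4H88.ABG

set_option linter.unusedSectionVars false

universe u v

section

variable (𝕜 : Type u) [Field 𝕜] (A : Type v) [NonUnitalNonAssocRing A] [Module 𝕜 A]
  [IsScalarTower 𝕜 A A] [SMulCommClass 𝕜 A A]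

/-- all matrices -/
abbrev M3 (𝕜 : Type u) [Field 𝕜] : Type u := Matrix (Fin 3) (Fin 3) 𝕜

/-- the inclusion `sl_3 ⊗ A → Mat_3 ⊗ A` -/
noncomputable def JJ : (sl3 𝕜 ⊗[𝕜] A) →ₗ[𝕜] (M3 𝕜 ⊗[𝕜] A) :=
  ((sl3 𝕜).toSubmodule.subtype).rTensor A

theorem JJ_tmul (X : sl3 𝕜) (p : A) : JJ 𝕜 A (X ⊗ₜ p) = X.1 ⊗ₜ p := rfl

theorem JJ_inj : Function.Injective (JJ 𝕜 A) :=
  Module.Flat.rTensor_preserves_injective_linearMap (M := A) _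
    (Submodule.injective_subtype _)

/-- multiplication of matrices with coefficients: `(M ⊗ m) * (Z ⊗ r) = MZ ⊗ mr` -/
noncomputable def mu1 (Z : M3 𝕜) (r : A) : (M3 𝕜 ⊗[𝕜] A) →ₗ[𝕜] (M3 𝕜 ⊗[𝕜] A) :=
  TensorProduct.map (LinearMap.mulRight 𝕜 Z) ((LinearMap.mul 𝕜 A).flip r)

/-- `(Z ⊗ r) * (M ⊗ m) = ZM ⊗ rm` -/
noncomputable def mu2 (Z : M3 𝕜) (r : A) : (M3 𝕜 ⊗[𝕜] A) →ₗ[𝕜] (M3 𝕜 ⊗[𝕜] A) :=
  TensorProduct.map (LinearMap.mulLeft 𝕜 Z) (LinearMap.mul 𝕜 A r)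

/-- `M ⊗ m ↦ tr (M Z) 1 ⊗ [m, r]` -/
noncomputable def mu3 (Z : M3 𝕜) (r : A) : (M3 𝕜 ⊗[𝕜] A) →ₗ[𝕜] (M3 𝕜 ⊗[𝕜] A) :=
  TensorProduct.map (((Matrix.traceLinearMap (Fin 3) 𝕜 𝕜) ∘ₗ (LinearMap.mulRight 𝕜 Z)).smulRight
    (1 : M3 𝕜)) ((LinearMap.mul 𝕜 A).flip r - LinearMap.mul 𝕜 A r)

theorem mu1_tmul (Z : M3 𝕜) (r : A) (M : M3 𝕜) (m : A) :
    mu1 𝕜 A Z r (M ⊗ₜ m) = (M * Z) ⊗ₜ (m * r) := rfl

theorem mu2_tmul (Z : M3 𝕜) (r : A) (M : M3 𝕜) (m : A) :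
    mu2 𝕜 A Z r (M ⊗ₜ m) = (Z * M) ⊗ₜ (r * m) := rfl

theorem mu3_tmul (Z : M3 𝕜) (r : A) (M : M3 𝕜) (m : A) :
    mu3 𝕜 A Z r (M ⊗ₜ m) = ((M * Z).trace • (1 : M3 𝕜)) ⊗ₜ (m * r - r * m) := rfl

variable [CharZero 𝕜] [IsAlt A]

/-- the bracket in `Mat_3 ⊗ A` -/
theorem JJ_brSS (t : sl3 𝕜 ⊗[𝕜] A) (Z : sl3 𝕜) (r : A) :
    JJ 𝕜 A (brSS 𝕜 A t (Z ⊗ₜ r)) = mu1 𝕜 A Z.1 r (JJ 𝕜 A t) - mu2 𝕜 A Z.1 r (JJ 𝕜 A t) -
      (3⁻¹ : 𝕜) • mu3 𝕜 A Z.1 r (JJ 𝕜 A t) := by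
  induction t using TensorProduct.induction_on with
  | zero => simp
  | tmul M m =>
    rw [brSS_tmul, map_add, JJ_tmul, JJ_tmul, JJ_tmul, mu1_tmul, mu2_tmul, mu3_tmul, slAnti_coe]
    have h : (⁅M, Z⁆ : sl3 𝕜).1 = M.1 * Z.1 - Z.1 * M.1 := rfl
    have hj : jor 𝕜 m r = (2⁻¹ : 𝕜) • (m * r + r * m) := rfl
    have hc : comm 𝕜 m r = m * r - r * m := rfl
    rw [h, hj, hc]
    simp only [TensorProduct.sub_tmul, TensorProduct.tmul_sub, TensorProduct.tmul_add,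
      TensorProduct.add_tmul, ← TensorProduct.smul_tmul', TensorProduct.tmul_smul, smul_add,
      smul_sub, smul_smul]
    module
  | add x y hx hy =>
    simp only [map_add, LinearMap.add_apply, hx, hy, smul_add]
    abel

/-- the pure case, first part -/
theorem JJ_three (X Y Z : sl3 𝕜) (p q r : A) :
    JJ 𝕜 A (brSS 𝕜 A (brSS 𝕜 A (X ⊗ₜ p) (Y ⊗ₜ q)) (Z ⊗ₜ r) +
      actS 𝕜 A (brSB 𝕜 A (X ⊗ₜ p) (Y ⊗ₜ q)) (Z ⊗ₜ r)) =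
    (X.1 * Y.1 * Z.1) ⊗ₜ ((p * q) * r) - (Y.1 * X.1 * Z.1) ⊗ₜ ((q * p) * r)
      - (Z.1 * X.1 * Y.1) ⊗ₜ (r * (p * q)) + (Z.1 * Y.1 * X.1) ⊗ₜ (r * (q * p))
      - ((3⁻¹ : 𝕜) * (X.1 * Y.1 * Z.1).trace) • ((1 : M3 𝕜) ⊗ₜ ((p * q) * r - r * (p * q)))
      + ((3⁻¹ : 𝕜) * (Y.1 * X.1 * Z.1).trace) • ((1 : M3 𝕜) ⊗ₜ ((q * p) * r - r * (q * p)))
      - (X.1 * Y.1).trace • (Z.1 ⊗ₜ aso p q r) := by
  have hZ : Z.1.trace = 0 := Z.2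
  have h1 : JJ 𝕜 A (brSS 𝕜 A (X ⊗ₜ p) (Y ⊗ₜ q)) = (X.1 * Y.1) ⊗ₜ (p * q) -
      (Y.1 * X.1) ⊗ₜ (q * p) - ((3⁻¹ : 𝕜) * (X.1 * Y.1).trace) • ((1 : M3 𝕜) ⊗ₜ (p * q - q * p)) := by
    rw [JJ_brSS, JJ_tmul, mu1_tmul, mu2_tmul, mu3_tmul, ← TensorProduct.smul_tmul', smul_smul]
  have h2 : JJ 𝕜 A (actS 𝕜 A (brSB 𝕜 A (X ⊗ₜ p) (Y ⊗ₜ q)) (Z ⊗ₜ r)) =
      ((3⁻¹ : 𝕜) * (X.1 * Y.1).trace) • (Z.1 ⊗ₜ ((p * q - q * p) * r - r * (p * q - q * p)))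
        - (X.1 * Y.1).trace • (Z.1 ⊗ₜ aso p q r) := by
    rw [brSB_tmul, map_smul, LinearMap.smul_apply, actS_tmul, DB_wedge, DD_eq, map_smul, JJ_tmul,
      TensorProduct.tmul_sub, smul_sub]
    congr 1
    have h3 : (3 : ℤ) • aso p q r = (3 : 𝕜) • aso p q r := by
      rw [← Int.cast_smul_eq_zsmul 𝕜 (3 : ℤ) (aso p q r)]
      norm_num
    rw [h3, TensorProduct.tmul_smul, smul_smul]
    congr 1
    have : (3 : 𝕜) ≠ 0 := three_ne_zero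
    field_simp
  rw [map_add, h2, JJ_brSS, h1]
  simp only [map_sub, map_smul, mu1_tmul, mu2_tmul, mu3_tmul, one_mul, mul_one, hZ, zero_smul,
    TensorProduct.zero_tmul, smul_zero, sub_zero, Matrix.mul_assoc]
  simp only [TensorProduct.sub_tmul, TensorProduct.tmul_sub, TensorProduct.tmul_add,
      TensorProduct.add_tmul, ← TensorProduct.smul_tmul', TensorProduct.tmul_smul, smul_add,
      smul_sub, smul_smul]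
  module

/-- JOB LIE 4, the pure case -/
theorem pure_SSS_S (X Y Z : sl3 𝕜) (p q r : A) :
    (brSS 𝕜 A (brSS 𝕜 A (X ⊗ₜ p) (Y ⊗ₜ q)) (Z ⊗ₜ r) +
      actS 𝕜 A (brSB 𝕜 A (X ⊗ₜ p) (Y ⊗ₜ q)) (Z ⊗ₜ r)) +
    (brSS 𝕜 A (brSS 𝕜 A (Y ⊗ₜ q) (Z ⊗ₜ r)) (X ⊗ₜ p) +
      actS 𝕜 A (brSB 𝕜 A (Y ⊗ₜ q) (Z ⊗ₜ r)) (X ⊗ₜ p)) +
    (brSS 𝕜 A (brSS 𝕜 A (Z ⊗ₜ r) (X ⊗ₜ p)) (Y ⊗ₜ q) +
      actS 𝕜 A (brSB 𝕜 A (Z ⊗ₜ r) (X ⊗ₜ p)) (Y ⊗ₜ q)) = 0 := by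
  apply JJ_inj 𝕜 A
  rw [map_zero, map_add (JJ 𝕜 A) (_ + _) (brSS 𝕜 A (brSS 𝕜 A (Z ⊗ₜ r) (X ⊗ₜ p)) (Y ⊗ₜ q) + _),
    map_add (JJ 𝕜 A) (brSS 𝕜 A (brSS 𝕜 A (X ⊗ₜ p) (Y ⊗ₜ q)) (Z ⊗ₜ r) + _), JJ_three, JJ_three,
    JJ_three]
  have t1 : (Y.1 * Z.1 * X.1).trace = (X.1 * Y.1 * Z.1).trace := by
    rw [Matrix.trace_mul_cycle]
  have t2 : (Z.1 * X.1 * Y.1).trace = (X.1 * Y.1 * Z.1).trace := by
    rw [Matrix.trace_mul_cycle, Matrix.trace_mul_cycle]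
  have t3 : (Z.1 * Y.1 * X.1).trace = (Y.1 * X.1 * Z.1).trace := by
    rw [Matrix.trace_mul_cycle, Matrix.trace_mul_cycle]
  have t4 : (X.1 * Z.1 * Y.1).trace = (Y.1 * X.1 * Z.1).trace := by
    rw [Matrix.trace_mul_cycle]
  rw [t1, t2, t3, t4]
  have a1 : aso q r p = aso p q r := (aso_rot' p q r).symm
  have a2 : aso r p q = aso p q r := (aso_rot p q r).symm
  have e1 : p * (q * r) = (p * q) * r - aso p q r := by simp [aso]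
  have e2 : q * (r * p) = (q * r) * p - aso p q r := by rw [← a1]; simp [aso]
  have e3 : r * (p * q) = (r * p) * q - aso p q r := by rw [← a2]; simp [aso]
  have e4 : q * (p * r) = (q * p) * r + aso p q r := by
    rw [aso_swap12 p q r]; simp [aso]
  have e5 : r * (q * p) = (r * q) * p + aso p q r := by
    rw [← a1, aso_swap12 q r p]; simp [aso]
  have e6 : p * (r * q) = (p * r) * q + aso p q r := by
    rw [← a2, aso_swap12 r p q]; simp [aso]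
  rw [a1, a2, e1, e2, e3, e4, e5, e6]
  have hCH := congrArg (fun M : M3 𝕜 => M ⊗ₜ[𝕜] aso p q r) (CH X.1 Y.1 Z.1 X.2 Y.2 Z.2)
  simp only [TensorProduct.sub_tmul, TensorProduct.tmul_sub, TensorProduct.tmul_add,
      TensorProduct.add_tmul, ← TensorProduct.smul_tmul', TensorProduct.tmul_smul, smul_add,
      smul_sub, smul_smul, add_smul] at hCH ⊢
  linear_combination (norm := module) hCH

/-- JOB LIE 4 -/
theorem t_jac_SSS_S (u v w : sl3 𝕜 ⊗[𝕜] A) :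
    brSS 𝕜 A (brSS 𝕜 A u v) w + brSS 𝕜 A (brSS 𝕜 A v w) u + brSS 𝕜 A (brSS 𝕜 A w u) v
      + (actS 𝕜 A (brSB 𝕜 A u v) w + actS 𝕜 A (brSB 𝕜 A v w) u + actS 𝕜 A (brSB 𝕜 A w u) v)
      = 0 := by
  induction u using TensorProduct.induction_on with
  | zero => simp
  | tmul X p =>
    induction v using TensorProduct.induction_on with
    | zero => simp
    | tmul Y q =>
      induction w using TensorProduct.induction_on with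
      | zero => simp
      | tmul Z r =>
        linear_combination (norm := abel) pure_SSS_S 𝕜 A X Y Z p q r
      | add x y hx hy =>
        simp only [map_add, LinearMap.add_apply]
        linear_combination (norm := abel) hx + hy
    | add x y hx hy =>
      simp only [map_add, LinearMap.add_apply]
      linear_combination (norm := abel) hx + hy
  | add x y hx hy =>
    simp only [map_add, LinearMap.add_apply]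
    linear_combination (norm := abel) hx + hy

end

end Pool.Agent.J4H42.ABG
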